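import Mathlib

/-!
Recurrence of the hyperextension on compact convex sets: for a continuous linear operator `f` of a
locally convex space, the hyperextension of `f` to the nonempty compact sets is topologically
`(ℓ, A)`-recurrent if and only if its restriction to the nonempty compact convex sets is.
-/

open Set TopologicalSpace Topology Pointwise

namespace Pool.Agent.Results.MP_a90892_an.ConvexHyperRecurrence

/-- A Furstenberg family on the nonnegative integers: upward closed, and the empty set is not a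
member. -/
structure IsFurstenberg (A : Set (Set ℕ)) : Prop where
  up : ∀ S ∈ A, ∀ T : Set ℕ, S ⊆ T → T ∈ A
  empty : ∅ ∉ A

/-- Topological `(ℓ, A)`-recurrence of the self-map `g`: for each nonempty open `U`, the set of all
`n` for which some `y` has `g^(j n) y ∈ U` for all `0 ≤ j ≤ ℓ` belongs to `A`. -/
def Recurrent {Y : Type*} [TopologicalSpace Y] (g : Y → Y) (ℓ : ℕ) (A : Set (Set ℕ)) : Prop :=
  ∀ U : Set Y, IsOpen U → U.Nonempty → {n : ℕ | ∃ y, ∀ j ≤ ℓ, g^[j * n] y ∈ U} ∈ A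

/-- The hyperextension of a continuous map to the nonempty compact sets (with the Vietoris
topology, which is Mathlib's topology on `NonemptyCompacts X`). -/
def hyper {X : Type*} [TopologicalSpace X] (f : X → X) (hf : Continuous f) :
    NonemptyCompacts X → NonemptyCompacts X :=
  fun K => K.map f hf

/-- The nonempty compact convex sets, with the topology induced from the Vietoris topology. -/
abbrev ConvexCompacts (E : Type*) [AddCommGroup E] [Module ℝ E] [TopologicalSpace E] : Type _ :=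
  {K : NonemptyCompacts E // Convex ℝ (K : Set E)}

/-- The restriction of the hyperextension of a continuous linear operator to the nonempty compact
convex sets. -/
def hyperConvex {𝕜 E : Type*} [RCLike 𝕜] [AddCommGroup E] [Module ℝ E] [Module 𝕜 E]
    [IsScalarTower ℝ 𝕜 E] [TopologicalSpace E] (f : E →L[𝕜] E) :
    ConvexCompacts E → ConvexCompacts E :=
  fun K => ⟨hyper f f.continuous K.1, by
    have := K.2.linear_image ((f : E →ₗ[𝕜] E).restrictScalars ℝ)
    simpa [hyper] using this⟩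

section Real

variable {E : Type*} [AddCommGroup E] [Module ℝ E] [TopologicalSpace E] [IsTopologicalAddGroup E]
  [ContinuousSMul ℝ E]

/-- The common return set of a family of sets. -/
def Ret {ι : Type*} (f : E → E) (ℓ : ℕ) (U : ι → Set E) : Set ℕ :=
  {n | ∀ i, ∃ z, ∀ j ≤ ℓ, f^[j * n] z ∈ U i}

/-- all the families of `N` nonempty open sets have a return set in `A`. -/
def P (f : E → E) (ℓ : ℕ) (A : Set (Set ℕ)) (N : ℕ) : Prop :=
  ∀ U : Fin N → Set E, (∀ i, IsOpen (U i)) → (∀ i, (U i).Nonempty) → Ret f ℓ U ∈ A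

/-- the hypothesis extracted from the recurrence of either of the hyperextensions. -/
def Hyp (f : E → E) (ℓ : ℕ) (A : Set (Set ℕ)) : Prop :=
  ∀ (N : ℕ) (e : Fin (N + 1) → E) (V : Fin (N + 1) → Set E) (O : Set E), (∀ i, IsOpen (V i)) →
    (∀ i, e i ∈ V i) → IsOpen O → convexHull ℝ (range e) ⊆ O →
    {n : ℕ | ∀ i, ∃ z ∈ V i, ∀ s ≤ ℓ, f^[s * n] z ∈ O} ∈ A

omit [ContinuousSMul ℝ E] in
lemma iter_lin (f : E →L[ℝ] E) (m : ℕ) : ((f ^ m : E →L[ℝ] E) : E → E) = f^[m] := by
  ext x; simp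

omit [TopologicalSpace E] [IsTopologicalAddGroup E] [ContinuousSMul ℝ E] in
lemma hull_subset {N : ℕ} (e : Fin N → E) :
    convexHull ℝ (range e) ⊆ (Fintype.linearCombination ℝ e) '' stdSimplex ℝ (Fin N) := by
  classical
  refine convexHull_min ?_ ((convex_stdSimplex ℝ (Fin N)).linear_image _)
  rintro _ ⟨i, rfl⟩
  exact ⟨Pi.single i 1, single_mem_stdSimplex ℝ i, by simp [Fintype.linearCombination_apply]⟩

/-- Key step. -/
lemma step {f : E →L[ℝ] E} {ℓ : ℕ} {A : Set (Set ℕ)} (hA : ∀ S ∈ A, ∀ T : Set ℕ, S ⊆ T → T ∈ A)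
    (h : Hyp (f : E → E) ℓ A) {N : ℕ} (hN : P (f : E → E) ℓ A N ∨ N = 0) :
    P (f : E → E) ℓ A (N + 1) := by
  classical
  intro U hUo hUne
  by_contra hcon
  choose e he using hUne
  -- the open good set
  let G : Fin (N + 1) → Set (E × E) := fun i =>
    {p | p.2 ∈ U i ∨ ∃ k, k ≠ i ∧ ∃ (a b : ℝ) (μ : Fin (N + 1) → ℝ),
      a • p.2 + b • p.1 + ∑ j ∈ Finset.univ.filter (fun j => j ≠ i ∧ j ≠ k), μ j • e j ∈ U k}
  have hGo : ∀ i, IsOpen (G i) := by
    intro i
    have : G i = (Prod.snd ⁻¹' U i) ∪ ⋃ (k) (_ : k ≠ i) (a : ℝ) (b : ℝ) (μ : Fin (N + 1) → ℝ),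
        (fun p : E × E => a • p.2 + b • p.1 +
          ∑ j ∈ Finset.univ.filter (fun j => j ≠ i ∧ j ≠ k), μ j • e j) ⁻¹' U k := by
      ext p
      simp [G]
    rw [this]
    refine ((hUo i).preimage continuous_snd).union ?_
    refine isOpen_iUnion fun k => isOpen_iUnion fun _ => isOpen_iUnion fun a =>
      isOpen_iUnion fun b => isOpen_iUnion fun μ => (hUo k).preimage ?_
    fun_prop
  have hsub : ∀ i, ({e i} : Set E) ×ˢ (convexHull ℝ (range e)) ⊆ G i := by
    rintro i ⟨x, y⟩ ⟨hx, hy⟩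
    simp only [mem_singleton_iff] at hx
    subst hx
    obtain ⟨w, ⟨hw0, hw1⟩, rfl⟩ := hull_subset e hy
    simp only [Fintype.linearCombination_apply]
    by_cases hk : ∃ k, k ≠ i ∧ w k ≠ 0
    · obtain ⟨k, hki, hwk⟩ := hk
      right
      refine ⟨k, hki, (w k)⁻¹, -((w k)⁻¹ * w i), fun j => -((w k)⁻¹ * w j), ?_⟩
      have hsum : ∑ j, w j • e j = w k • e k + w i • e i +
          ∑ j ∈ Finset.univ.filter (fun j => j ≠ i ∧ j ≠ k), w j • e j := by
        rw [← Finset.add_sum_erase _ _ (Finset.mem_univ k),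
          ← Finset.add_sum_erase _ _ (Finset.mem_erase.2 ⟨Ne.symm hki, Finset.mem_univ i⟩),
          add_assoc]
        congr 3
        ext j; simp [and_comm]
      have : (w k)⁻¹ • ∑ j, w j • e j + -((w k)⁻¹ * w i) • e i +
          ∑ j ∈ Finset.univ.filter (fun j => j ≠ i ∧ j ≠ k), -((w k)⁻¹ * w j) • e j = e k := by
        have h2 : ∑ j ∈ Finset.univ.filter (fun j => j ≠ i ∧ j ≠ k), -((w k)⁻¹ * w j) • e j
            = -((w k)⁻¹ • ∑ j ∈ Finset.univ.filter (fun j => j ≠ i ∧ j ≠ k), w j • e j) := by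
          rw [Finset.smul_sum, ← Finset.sum_neg_distrib]
          refine Finset.sum_congr rfl fun j _ => ?_
          rw [neg_smul, mul_smul]
        rw [h2, hsum, smul_add, smul_add, smul_smul, inv_mul_cancel₀ hwk, one_smul, neg_smul,
          mul_smul]
        abel
      simp only
      rw [this]
      exact he k
    · push Not at hk
      left
      have h1 : w i = 1 := by
        rw [← hw1]
        refine (Finset.sum_eq_single i (fun j _ hj => hk j hj) (by simp)).symm
      have : ∑ j, w j • e j = e i := by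
        rw [Finset.sum_eq_single i (fun j _ hj => by rw [hk j hj, zero_smul]) (by simp), h1,
          one_smul]
      simp only
      rw [this]
      exact he i
  have hcpt : IsCompact (convexHull ℝ (range e)) := (finite_range e).isCompact_convexHull ℝ
  choose V O hVo hOo hV hO hVO using fun i =>
    generalized_tube_lemma (isCompact_singleton (x := e i)) hcpt (hGo i) (hsub i)
  apply hcon
  refine hA _ (h N e (fun i => V i ∩ U i) (⋂ i, O i) (fun i => (hVo i).inter (hUo i))
    (fun i => ⟨hV i rfl, he i⟩) (isOpen_iInter_of_finite hOo) (subset_iInter hO)) _ ?_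
  intro n hn i
  obtain ⟨z, ⟨hzV, hzU⟩, hz⟩ := hn i
  refine ⟨z, fun s hs => ?_⟩
  by_contra hzs
  rcases hVO i (mk_mem_prod hzV (mem_iInter.1 (hz s hs) i)) with hgood | ⟨k, hki, a, b, μ, hgood⟩
  · exact hzs hgood
  -- the non-cyclicity contradiction
  apply hcon
  rcases hN with hN | hN
  swap
  · subst hN
    exact absurd (Fin.ext (by omega)) hki
  set m := s * n with hm
  let x : Fin (N + 1) → E := fun j => if j = i then z else e j
  let Φ : (Fin (N + 1) → E) → E := fun v => a • (f ^ m : E →L[ℝ] E) (v i) + b • v i +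
    ∑ j ∈ Finset.univ.filter (fun j => j ≠ i ∧ j ≠ k), μ j • v j
  have hΦc : Continuous Φ := by fun_prop
  let 𝒪 : Set (Fin (N + 1) → E) := {v | (∀ j, j ≠ k → v j ∈ U j) ∧ Φ v ∈ U k}
  have h𝒪o : IsOpen 𝒪 := by
    have : 𝒪 = (⋂ (j) (_ : j ≠ k), (fun v : Fin (N + 1) → E => v j) ⁻¹' U j) ∩ Φ ⁻¹' U k := by
      ext v; simp [𝒪]
    rw [this]
    refine IsOpen.inter ?_ ((hUo k).preimage hΦc)
    exact isOpen_iInter_of_finite fun j => isOpen_iInter_of_finite fun _ =>
      (hUo j).preimage (continuous_apply j)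
  have hx : x ∈ 𝒪 := by
    refine ⟨fun j hj => ?_, ?_⟩
    · by_cases hji : j = i
      · subst hji; simpa [x] using hzU
      · simpa [x, hji] using he j
    · have h1 : Φ x = a • f^[m] z + b • z +
          ∑ j ∈ Finset.univ.filter (fun j => j ≠ i ∧ j ≠ k), μ j • e j := by
        have h2 : ∑ j ∈ Finset.univ.filter (fun j => j ≠ i ∧ j ≠ k), μ j • x j =
            ∑ j ∈ Finset.univ.filter (fun j => j ≠ i ∧ j ≠ k), μ j • e j := by
          refine Finset.sum_congr rfl fun j hj => ?_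
          simp only [Finset.mem_filter, Finset.mem_univ, true_and] at hj
          simp [x, hj.1]
        simp only [Φ, h2]
        rw [iter_lin]
        simp [x]
      rw [h1]
      exact hgood
  obtain ⟨W, hW, hW𝒪⟩ := isOpen_pi_iff'.1 h𝒪o x hx
  refine hA _ (hN (fun j => W (k.succAbove j)) (fun j => (hW _).1) (fun j => ⟨_, (hW _).2⟩)) _ ?_
  intro n' hn'
  choose y hy using hn'
  -- the vector of points
  let Y : ℕ → Fin (N + 1) → E := fun t => k.insertNth (x k) (fun j => f^[t * n'] (y j))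
  have hY : ∀ t ≤ ℓ, Y t ∈ 𝒪 := by
    intro t ht
    apply hW𝒪
    intro j _
    rcases Fin.eq_self_or_eq_succAbove k j with rfl | ⟨j, rfl⟩
    · simpa [Y] using (hW j).2
    · simpa [Y] using hy j t ht
  intro j
  rcases Fin.eq_self_or_eq_succAbove k j with rfl | ⟨j, rfl⟩
  · refine ⟨Φ (Y 0), fun t ht => ?_⟩
    have h3 := (hY t ht).2
    have hkey : Φ (Y t) = f^[t * n'] (Φ (Y 0)) := by
      have hcomp : ∀ j', j' ≠ j → Y t j' = (f ^ (t * n') : E →L[ℝ] E) (Y 0 j') := by
        intro j' hj'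
        rcases Fin.eq_self_or_eq_succAbove j j' with rfl | ⟨j', rfl⟩
        · exact absurd rfl hj'
        · simp [Y]
      rw [← iter_lin]
      simp only [Φ, map_add, map_smul, map_sum]
      rw [hcomp i (Ne.symm hki)]
      congr 1
      · congr 2
        rw [← mul_apply_eq_comp, ← mul_apply_eq_comp, ← pow_add, ← pow_add,
          add_comm]
      · refine Finset.sum_congr rfl fun j' hj' => ?_
        simp only [Finset.mem_filter, Finset.mem_univ, true_and] at hj'
        rw [hcomp j' hj'.2]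
    rw [← hkey]
    exact h3
  · refine ⟨y j, fun t ht => ?_⟩
    have := (hY t ht).1 (k.succAbove j) (Fin.succAbove_ne k j)
    simpa [Y] using this

lemma all_P {f : E →L[ℝ] E} {ℓ : ℕ} {A : Set (Set ℕ)} (hA : ∀ S ∈ A, ∀ T : Set ℕ, S ⊆ T → T ∈ A)
    (h : Hyp (f : E → E) ℓ A) (N : ℕ) : P (f : E → E) ℓ A (N + 1) := by
  induction N with
  | zero => exact step hA h (Or.inr rfl)
  | succ N ih => exact step hA h (Or.inl ih)

omit [AddCommGroup E] [Module ℝ E] [IsTopologicalAddGroup E] [ContinuousSMul ℝ E] in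
lemma hyper_iter (f : E → E) (hf : Continuous f) (m : ℕ) (K : NonemptyCompacts E) :
    (((hyper f hf)^[m] K : NonemptyCompacts E) : Set E) = f^[m] '' (K : Set E) := by
  induction m with
  | zero => simp
  | succ m ih =>
    rw [Function.iterate_succ', Function.comp_apply, Function.iterate_succ']
    have : ((hyper f hf ((hyper f hf)^[m] K) : NonemptyCompacts E) : Set E) =
      f '' (((hyper f hf)^[m] K : NonemptyCompacts E) : Set E) := rfl
    rw [this, ih, image_comp]

omit [AddCommGroup E] [Module ℝ E] [IsTopologicalAddGroup E] [ContinuousSMul ℝ E] in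
lemma vopen {N : ℕ} (V : Fin (N + 1) → Set E) (O : Set E) (hV : ∀ i, IsOpen (V i))
    (hO : IsOpen O) :
    IsOpen {K : NonemptyCompacts E | (K : Set E) ⊆ O ∧ ∀ i, ((K : Set E) ∩ V i).Nonempty} := by
  have : {K : NonemptyCompacts E | (K : Set E) ⊆ O ∧ ∀ i, ((K : Set E) ∩ V i).Nonempty} =
      {K : NonemptyCompacts E | (K : Set E) ⊆ O} ∩
        ⋂ i, {K : NonemptyCompacts E | ((K : Set E) ∩ V i).Nonempty} := by
    ext K; simp
  rw [this]
  exact (NonemptyCompacts.isOpen_subsets_of_isOpen hO).inter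
    (isOpen_iInter_of_finite fun i => NonemptyCompacts.isOpen_inter_nonempty_of_isOpen (hV i))

/-- The convex hull of finitely many points, as a nonempty compact set. -/
noncomputable def hull {ι : Type*} [Finite ι] [Nonempty ι] (e : ι → E) : NonemptyCompacts E :=
  ⟨⟨convexHull ℝ (range e), (finite_range e).isCompact_convexHull ℝ⟩,
    (range_nonempty e).convexHull⟩

lemma hyp_of_compact {f : E →L[ℝ] E} {ℓ : ℕ} {A : Set (Set ℕ)}
    (hA : ∀ S ∈ A, ∀ T : Set ℕ, S ⊆ T → T ∈ A) (h : Recurrent (hyper f f.continuous) ℓ A) :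
    Hyp (f : E → E) ℓ A := by
  intro N e V O hV he hO heO
  refine hA _ (h _ (vopen V O hV hO) ⟨hull e, heO, fun i =>
    ⟨e i, subset_convexHull ℝ _ (mem_range_self i), he i⟩⟩) _ ?_
  rintro n ⟨K, hK⟩ i
  obtain ⟨z, hzK, hzV⟩ := (hK 0 (Nat.zero_le _)).2 i
  simp only [zero_mul, Function.iterate_zero, id_eq] at hzK
  refine ⟨z, hzV, fun s hs => (hK s hs).1 ?_⟩
  rw [hyper_iter]
  exact mem_image_of_mem _ hzK

omit [IsTopologicalAddGroup E] [ContinuousSMul ℝ E] in
lemma hyperConvex_iter (f : E →L[ℝ] E) (m : ℕ) (K : ConvexCompacts E) :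
    ((hyperConvex f)^[m] K).1 = (hyper f f.continuous)^[m] K.1 := by
  induction m with
  | zero => rfl
  | succ m ih =>
    rw [Function.iterate_succ', Function.comp_apply, Function.iterate_succ', Function.comp_apply,
      ← ih]
    rfl

lemma hyp_of_convex {f : E →L[ℝ] E} {ℓ : ℕ} {A : Set (Set ℕ)}
    (hA : ∀ S ∈ A, ∀ T : Set ℕ, S ⊆ T → T ∈ A) (h : Recurrent (hyperConvex f) ℓ A) :
    Hyp (f : E → E) ℓ A := by
  intro N e V O hV he hO heO
  refine hA _ (h (Subtype.val ⁻¹' _) ((vopen V O hV hO).preimage continuous_subtype_val)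
    ⟨⟨hull e, convex_convexHull ℝ _⟩, heO, fun i =>
      ⟨e i, subset_convexHull ℝ _ (mem_range_self i), he i⟩⟩) _ ?_
  rintro n ⟨K, hK⟩ i
  obtain ⟨z, hzK, hzV⟩ := (hK 0 (Nat.zero_le _)).2 i
  simp only [zero_mul, Function.iterate_zero, id_eq] at hzK
  refine ⟨z, hzV, fun s hs => (hK s hs).1 ?_⟩
  rw [hyperConvex_iter, hyper_iter]
  exact mem_image_of_mem _ hzK

omit [IsTopologicalAddGroup E] [ContinuousSMul ℝ E] in
lemma compact_of_P {f : E →L[ℝ] E} {ℓ : ℕ} {A : Set (Set ℕ)}
    (hA : ∀ S ∈ A, ∀ T : Set ℕ, S ⊆ T → T ∈ A) (h : ∀ N, P (f : E → E) ℓ A (N + 1)) :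
    Recurrent (hyper f f.continuous) ℓ A := by
  rintro 𝒰 h𝒰 ⟨K, hK⟩
  obtain ⟨_, ⟨u, ⟨hu, hune, huo⟩, rfl⟩, hKu, hu𝒰⟩ :=
    NonemptyCompacts.isTopologicalBasis.exists_subset_of_mem_open hK h𝒰
  obtain ⟨n, U, -, rfl⟩ := hu.fin_param
  rw [range_nonempty_iff_nonempty] at hune
  obtain ⟨i0⟩ := hune
  obtain ⟨N, rfl⟩ : ∃ N, n = N + 1 := ⟨n - 1, by have := i0.2; omega⟩
  simp only [forall_mem_range] at huo hKu
  refine hA _ (h N U huo fun i => ((hKu.2 i).mono inter_subset_right)) _ ?_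
  intro n hn
  choose z hz using hn
  refine ⟨⟨⟨range z, (finite_range z).isCompact⟩, range_nonempty z⟩, fun j hj => hu𝒰 ?_⟩
  simp only [mem_ofPred_eq, forall_mem_range]
  rw [hyper_iter]
  refine ⟨?_, fun i => ⟨f^[j * n] (z i), mem_image_of_mem _ (mem_range_self i), hz i j hj⟩⟩
  rintro _ ⟨_, ⟨i, rfl⟩, rfl⟩
  exact mem_sUnion_of_mem (hz i j hj) (mem_range_self i)

lemma convex_of_P [LocallyConvexSpace ℝ E] {f : E →L[ℝ] E} {ℓ : ℕ} {A : Set (Set ℕ)}
    (hA : ∀ S ∈ A, ∀ T : Set ℕ, S ⊆ T → T ∈ A) (h : ∀ N, P (f : E → E) ℓ A (N + 1)) :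
    Recurrent (hyperConvex f) ℓ A := by
  rintro _ ⟨𝒰, h𝒰, rfl⟩ ⟨K, hK⟩
  obtain ⟨_, ⟨u, ⟨hu, hune, huo⟩, rfl⟩, hKu, hu𝒰⟩ :=
    NonemptyCompacts.isTopologicalBasis.exists_subset_of_mem_open hK h𝒰
  obtain ⟨n, U, -, rfl⟩ := hu.fin_param
  rw [range_nonempty_iff_nonempty] at hune
  obtain ⟨i0⟩ := hune
  obtain ⟨N, rfl⟩ : ∃ N, n = N + 1 := ⟨n - 1, by have := i0.2; omega⟩
  simp only [forall_mem_range] at huo hKu
  -- a convex open set between `K` and the union
  have hOo : IsOpen (⋃₀ range U) := isOpen_sUnion (by rintro _ ⟨i, rfl⟩; exact huo i)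
  obtain ⟨V, hV, hKV⟩ := compact_open_separated_add_right K.1.isCompact hOo hKu.1
  obtain ⟨W, ⟨hW0, hWo, hWc⟩, hWV⟩ := (LocallyConvexSpace.convex_open_basis_zero ℝ E).mem_iff.1 hV
  set O : Set E := (K.1 : Set E) + W with hO
  have hOopen : IsOpen O := hWo.add_left
  have hOconv : Convex ℝ O := K.2.add hWc
  have hOsub : O ⊆ ⋃₀ range U := (add_subset_add_left hWV).trans hKV
  have hKO : (K.1 : Set E) ⊆ O := subset_add_left _ hW0
  refine hA _ (h N (fun i => U i ∩ O) (fun i => (huo i).inter hOopen) fun i => ?_) _ ?_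
  · obtain ⟨x, hxK, hxU⟩ := hKu.2 i
    exact ⟨x, hxU, hKO hxK⟩
  intro n hn
  choose z hz using hn
  refine ⟨⟨hull z, convex_convexHull ℝ _⟩, fun j hj => ?_⟩
  rw [mem_preimage, hyperConvex_iter]
  apply hu𝒰
  simp only [mem_ofPred_eq, forall_mem_range]
  rw [hyper_iter]
  have himg : f^[j * n] '' (hull z : Set E) = convexHull ℝ (f^[j * n] '' range z) := by
    have := LinearMap.image_convexHull ((f ^ (j * n) : E →L[ℝ] E) : E →ₗ[ℝ] E) (range z)
    rw [← iter_lin]
    exact this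
  refine ⟨?_, fun i => ⟨f^[j * n] (z i), mem_image_of_mem _
    (subset_convexHull ℝ _ (mem_range_self i)), (hz i j hj).1⟩⟩
  rw [himg]
  refine (convexHull_min ?_ hOconv).trans hOsub
  rintro _ ⟨_, ⟨i, rfl⟩, rfl⟩
  exact (hz i j hj).2

end Real

/-- **Main theorem.** Let `E` be a real or complex locally convex topological vector space, `f` a
continuous linear operator on `E`, `ℓ : ℕ`, and `A` a Furstenberg family. Then the hyperextension
of `f` to the nonempty compact sets is topologically `(ℓ, A)`-recurrent if and only if the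
hyperextension of `f` to the nonempty compact convex sets is. -/
theorem result {𝕜 E : Type*} [RCLike 𝕜] [AddCommGroup E] [Module ℝ E] [Module 𝕜 E]
    [IsScalarTower ℝ 𝕜 E] [TopologicalSpace E] [IsTopologicalAddGroup E] [ContinuousSMul 𝕜 E]
    [LocallyConvexSpace ℝ E] (f : E →L[𝕜] E) (ℓ : ℕ) (A : Set (Set ℕ)) (hA : IsFurstenberg A) :
    Recurrent (hyper f f.continuous) ℓ A ↔ Recurrent (hyperConvex f) ℓ A := by
  have : ContinuousSMul ℝ E := IsScalarTower.continuousSMul 𝕜
  let g : E →L[ℝ] E := f.restrictScalars ℝ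
  change Recurrent (hyper g g.continuous) ℓ A ↔ Recurrent (hyperConvex g) ℓ A
  exact ⟨fun h => convex_of_P hA.up (all_P hA.up (hyp_of_compact hA.up h)),
    fun h => compact_of_P hA.up (all_P hA.up (hyp_of_convex hA.up h))⟩

end Pool.Agent.Results.MP_a90892_an.ConvexHyperRecurrence
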